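import Mathlib

/-!
# Exact shuffles of two counters by lazy transpositions: `U_2(n) = 2n - 3`

Lower bound.  Write `N x y` for the probability that counter 1 is at `x` and counter 2 at `y`.
A lazy transposition `(a, b, p)` turns the matrix `N` into `(1 - p) N + p P N P`, where `P` is
the permutation matrix of the transposition `(a b)`.  With `v = e_a - e_b` this equals
`(1 - p v vᵀ) N (1 - p v vᵀ) + p (1 - p) (vᵀ N v) v vᵀ`, so the rank grows by at most one, and
it does not grow if `vᵀ N v = - N a b - N b a` vanishes; this is the case when `a` or `b` has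
never been occupied.  The rank goes from `1` to `n` and the number of occupied positions from
`2` to `n`, and no step increases both, so at least `(n - 1) + (n - 2)` steps are needed.
-/

namespace Pool.Agent.Results.MP_3359ff_co.TwoCounters

open Finset

/-- A lazy transposition `(a, b, p)` of the positions `Fin n`. -/
structure LazyTransposition (n : ℕ) where
  /-- first position -/
  a : Fin n
  /-- second position -/
  b : Fin n
  /-- the positions are distinct -/
  ne : a ≠ b
  /-- the probability of the exchange -/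
  p : ℝ
  /-- the probability is nonnegative -/
  nonneg : 0 ≤ p
  /-- the probability is at most one -/
  le_one : p ≤ 1

/-- The law of the random permutation `(a, b, p)`: it is the transposition of `a` and `b` with
probability `p` and the identity with probability `1 - p`. -/
def LazyTransposition.law {n : ℕ} (T : LazyTransposition n) (π : Equiv.Perm (Fin n)) : ℝ :=
  (if π = 1 then 1 - T.p else 0) + (if π = Equiv.swap T.a T.b then T.p else 0)

/-- The law of the composition of independent lazy transpositions, applied in the order of the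
list: the product `τ * σ` of the first one `σ` and the composition `τ` of the others equals `π`
exactly if `τ = π * σ⁻¹`. -/
def compLaw {n : ℕ} : List (LazyTransposition n) → Equiv.Perm (Fin n) → ℝ
  | [], π => if π = 1 then 1 else 0
  | T :: L, π => ∑ σ : Equiv.Perm (Fin n), T.law σ * compLaw L (π * σ⁻¹)

/-- The probability that after the lazy transpositions of the list `L` the counter that started
at the first position is at `x` and the counter that started at the second position is at
`y`. -/
def outcomeProb {n : ℕ} (h : 2 ≤ n) (L : List (LazyTransposition n)) (x y : Fin n) : ℝ :=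
  ∑ π : Equiv.Perm (Fin n),
    if π ⟨0, by omega⟩ = x ∧ π ⟨1, by omega⟩ = y then compLaw L π else 0

/-- The list `L` is a `(2, n)`-shuffle: the outcome is uniformly distributed over the
`n (n - 1)` ordered pairs of distinct positions. -/
def IsShuffle {n : ℕ} (h : 2 ≤ n) (L : List (LazyTransposition n)) : Prop :=
  ∀ x y : Fin n, x ≠ y → outcomeProb h L x y = 1 / ((n : ℝ) * ((n : ℝ) - 1))

/-! ### Recursions for the transition probabilities -/

variable {n : ℕ}

/-- probability to go from the pair `(s, t)` to the pair `(x, y)` -/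
def trans (L : List (LazyTransposition n)) (s t x y : Fin n) : ℝ :=
  ∑ π : Equiv.Perm (Fin n), if π s = x ∧ π t = y then compLaw L π else 0

theorem outcomeProb_eq (h : 2 ≤ n) (L : List (LazyTransposition n)) (x y : Fin n) :
    outcomeProb h L x y = trans L ⟨0, by omega⟩ ⟨1, by omega⟩ x y := rfl

theorem sum_law (T : LazyTransposition n) (f : Equiv.Perm (Fin n) → ℝ) :
    ∑ σ : Equiv.Perm (Fin n), T.law σ * f σ
      = (1 - T.p) * f 1 + T.p * f (Equiv.swap T.a T.b) := by
  simp only [LazyTransposition.law, add_mul, Finset.sum_add_distrib, ite_mul, zero_mul,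
    Finset.sum_ite_eq', Finset.mem_univ, if_true]

theorem compLaw_cons (T : LazyTransposition n) (L : List (LazyTransposition n))
    (π : Equiv.Perm (Fin n)) :
    compLaw (T :: L) π = (1 - T.p) * compLaw L π
      + T.p * compLaw L (π * Equiv.swap T.a T.b) := by
  rw [compLaw, sum_law]
  simp

theorem compLaw_snoc (T : LazyTransposition n) (L : List (LazyTransposition n)) :
    ∀ π : Equiv.Perm (Fin n), compLaw (L ++ [T]) π = (1 - T.p) * compLaw L π
      + T.p * compLaw L (Equiv.swap T.a T.b * π) := by
  induction L with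
  | nil =>
    intro π
    rw [List.nil_append, compLaw_cons]
    simp only [compLaw]
    have : (π * Equiv.swap T.a T.b = 1) ↔ (Equiv.swap T.a T.b * π = 1) := by
      rw [mul_eq_one_iff_eq_inv, Equiv.swap_inv, mul_eq_one_iff_inv_eq, Equiv.swap_inv, eq_comm]
    simp only [this]
  | cons S L ih =>
    intro π
    rw [List.cons_append, compLaw_cons, ih, ih, compLaw_cons, compLaw_cons, mul_assoc]
    ring

theorem trans_nil (s t x y : Fin n) :
    trans ([] : List (LazyTransposition n)) s t x y = if s = x ∧ t = y then 1 else 0 := by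
  unfold trans
  rw [Finset.sum_eq_single (1 : Equiv.Perm (Fin n))]
  · simp [compLaw]
  · intro π _ hπ
    simp [compLaw, hπ]
  · simp

theorem trans_cons (T : LazyTransposition n) (L : List (LazyTransposition n))
    (s t x y : Fin n) :
    trans (T :: L) s t x y = (1 - T.p) * trans L s t x y
      + T.p * trans L (Equiv.swap T.a T.b s) (Equiv.swap T.a T.b t) x y := by
  have h2 : trans L (Equiv.swap T.a T.b s) (Equiv.swap T.a T.b t) x y
      = ∑ π : Equiv.Perm (Fin n), if π s = x ∧ π t = y
          then compLaw L (π * Equiv.swap T.a T.b) else 0 := by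
    unfold trans
    refine Fintype.sum_equiv (Equiv.mulRight (Equiv.swap T.a T.b)) _ _ ?_
    intro π
    simp [Equiv.Perm.mul_apply, mul_assoc]
  rw [h2]
  unfold trans
  rw [Finset.mul_sum, Finset.mul_sum, ← Finset.sum_add_distrib]
  refine Finset.sum_congr rfl fun π _ => ?_
  rw [compLaw_cons]
  split_ifs <;> ring

theorem trans_snoc (T : LazyTransposition n) (L : List (LazyTransposition n))
    (s t x y : Fin n) :
    trans (L ++ [T]) s t x y = (1 - T.p) * trans L s t x y
      + T.p * trans L s t (Equiv.swap T.a T.b x) (Equiv.swap T.a T.b y) := by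
  have h2 : trans L s t (Equiv.swap T.a T.b x) (Equiv.swap T.a T.b y)
      = ∑ π : Equiv.Perm (Fin n), if π s = x ∧ π t = y
          then compLaw L (Equiv.swap T.a T.b * π) else 0 := by
    unfold trans
    refine Fintype.sum_equiv (Equiv.mulLeft (Equiv.swap T.a T.b)) _ _ ?_
    intro π
    have e : ∀ u w : Fin n, (Equiv.swap T.a T.b) u = w ↔ u = Equiv.swap T.a T.b w := by
      intro u w
      constructor
      · rintro rfl; simp
      · rintro rfl; simp
    simp [Equiv.Perm.mul_apply, e, ← mul_assoc]
  rw [h2]
  unfold trans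
  rw [Finset.mul_sum, Finset.mul_sum, ← Finset.sum_add_distrib]
  refine Finset.sum_congr rfl fun π _ => ?_
  rw [compLaw_snoc]
  split_ifs <;> ring

/-- Distinct counters stay distinct. -/
theorem trans_diag (L : List (LazyTransposition n)) {s t : Fin n} (hst : s ≠ t) (x : Fin n) :
    trans L s t x x = 0 := by
  unfold trans
  refine Finset.sum_eq_zero fun π _ => ?_
  rw [if_neg]
  rintro ⟨h1, h2⟩
  exact hst (π.injective (h1.trans h2.symm))

/-! ### The lower bound -/

open Matrix

/-- the matrix of joint probabilities -/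
noncomputable def mat (L : List (LazyTransposition n)) (s t : Fin n) :
    Matrix (Fin n) (Fin n) ℝ := Matrix.of fun x y => trans L s t x y

/-- `e_a - e_b` -/
def vec (a b : Fin n) : Fin n → ℝ := Pi.single a 1 - Pi.single b 1

theorem sum_vec (a b : Fin n) (f : Fin n → ℝ) : ∑ z, vec a b z * f z = f a - f b := by
  simp [vec, sub_mul, Finset.sum_sub_distrib, Pi.single_apply]

theorem sum_vec' (a b : Fin n) (f : Fin n → ℝ) : ∑ z, f z * vec a b z = f a - f b := by
  simp [vec, mul_sub, Finset.sum_sub_distrib, Pi.single_apply]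

theorem swap_eval {a b : Fin n} (hab : a ≠ b) (f : Fin n → ℝ) (x : Fin n) :
    f (Equiv.swap a b x) = f x - vec a b x * (f a - f b) := by
  by_cases hxa : x = a
  · subst hxa
    simp [vec, hab]
  · by_cases hxb : x = b
    · subst hxb
      simp [vec, hxa]
    · rw [Equiv.swap_apply_of_ne_of_ne hxa hxb]
      simp [vec, hxa, hxb]

/-- The algebraic identity behind the rank bound. -/
theorem key_identity (N : Matrix (Fin n) (Fin n) ℝ) {a b : Fin n} (hab : a ≠ b) (p : ℝ) :
    (Matrix.of fun x y => (1 - p) * N x y
        + p * N (Equiv.swap a b x) (Equiv.swap a b y) : Matrix (Fin n) (Fin n) ℝ)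
      = (1 - p • vecMulVec (vec a b) (vec a b)) * N * (1 - p • vecMulVec (vec a b) (vec a b))
        + (p * (1 - p) * (N a a + N b b - N a b - N b a)) • vecMulVec (vec a b) (vec a b) := by
  have hVN : ∀ x y, (vecMulVec (vec a b) (vec a b) * N) x y
      = vec a b x * (N a y - N b y) := by
    intro x y
    rw [Matrix.mul_apply, ← sum_vec a b (fun z => N z y), Finset.mul_sum]
    refine Finset.sum_congr rfl fun z _ => ?_
    rw [vecMulVec_apply]; ring
  have hMV : ∀ (M : Matrix (Fin n) (Fin n) ℝ) x y, (M * vecMulVec (vec a b) (vec a b)) x y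
      = (M x a - M x b) * vec a b y := by
    intro M x y
    rw [Matrix.mul_apply, ← sum_vec' a b (fun z => M x z), Finset.sum_mul]
    refine Finset.sum_congr rfl fun z _ => ?_
    rw [vecMulVec_apply]; ring
  ext x y
  have h1 : (1 - p • vecMulVec (vec a b) (vec a b)) * N
      * (1 - p • vecMulVec (vec a b) (vec a b))
      = N - p • (vecMulVec (vec a b) (vec a b) * N) - p • (N * vecMulVec (vec a b) (vec a b))
        + (p * p) • (vecMulVec (vec a b) (vec a b) * N * vecMulVec (vec a b) (vec a b)) := by
    simp only [sub_mul, mul_sub, one_mul, mul_one, Matrix.smul_mul, Matrix.mul_smul, smul_smul]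
    abel
  rw [h1]
  simp only [Matrix.add_apply, Matrix.sub_apply, Matrix.smul_apply, smul_eq_mul, hMV, hVN,
    Matrix.of_apply, vecMulVec_apply]
  have e1 : N (Equiv.swap a b x) (Equiv.swap a b y) = N x (Equiv.swap a b y)
      - vec a b x * (N a (Equiv.swap a b y) - N b (Equiv.swap a b y)) :=
    swap_eval hab (fun z => N z (Equiv.swap a b y)) x
  have e2 : ∀ w, N w (Equiv.swap a b y) = N w y - vec a b y * (N w a - N w b) :=
    fun w => swap_eval hab (fun z => N w z) y
  rw [e1, e2, e2, e2]
  ring

theorem rank_vecMulVec_smul_le (c : ℝ) (v : Fin n → ℝ) :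
    (c • vecMulVec v v).rank ≤ 1 := by
  rw [← Matrix.smul_vecMulVec]
  exact Matrix.rank_vecMulVec_le _ _

theorem rank_add_le (A B : Matrix (Fin n) (Fin n) ℝ) : (A + B).rank ≤ A.rank + B.rank := by
  have h : LinearMap.range (A + B).mulVecLin ≤
      LinearMap.range A.mulVecLin ⊔ LinearMap.range B.mulVecLin := by
    rintro _ ⟨v, rfl⟩
    rw [Matrix.mulVecLin_add, LinearMap.add_apply]
    exact Submodule.add_mem_sup ⟨v, rfl⟩ ⟨v, rfl⟩
  unfold Matrix.rank
  exact (Submodule.finrank_mono h).trans (Submodule.finrank_add_le_finrank_add_finrank _ _)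

/-- The rank grows by at most one. -/
theorem rank_step (N : Matrix (Fin n) (Fin n) ℝ) {a b : Fin n} (hab : a ≠ b) (p : ℝ) :
    (Matrix.of fun x y => (1 - p) * N x y
        + p * N (Equiv.swap a b x) (Equiv.swap a b y) : Matrix (Fin n) (Fin n) ℝ).rank
      ≤ N.rank + 1 := by
  rw [key_identity N hab p]
  refine (rank_add_le _ _).trans ?_
  refine Nat.add_le_add ?_ (rank_vecMulVec_smul_le _ _)
  exact (Matrix.rank_mul_le_left _ _).trans (Matrix.rank_mul_le_right _ _)

/-- The rank does not grow when the two positions carry no joint mass. -/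
theorem rank_step_zero (N : Matrix (Fin n) (Fin n) ℝ) {a b : Fin n} (hab : a ≠ b) (p : ℝ)
    (h0 : N a a + N b b - N a b - N b a = 0) :
    (Matrix.of fun x y => (1 - p) * N x y
        + p * N (Equiv.swap a b x) (Equiv.swap a b y) : Matrix (Fin n) (Fin n) ℝ).rank
      ≤ N.rank := by
  rw [key_identity N hab p, h0, mul_zero, zero_smul, add_zero]
  exact (Matrix.rank_mul_le_left _ _).trans (Matrix.rank_mul_le_right _ _)

/-- the occupied positions -/
noncomputable def occ (L : List (LazyTransposition n)) (s t : Fin n) : Finset (Fin n) := by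
  classical
  exact univ.filter fun x => ∃ y, trans L s t x y ≠ 0 ∨ trans L s t y x ≠ 0

theorem mem_occ (L : List (LazyTransposition n)) (s t x : Fin n) :
    x ∈ occ L s t ↔ ∃ y, trans L s t x y ≠ 0 ∨ trans L s t y x ≠ 0 := by
  classical
  simp [occ]

theorem occ_snoc (T : LazyTransposition n) (L : List (LazyTransposition n)) (s t x : Fin n)
    (hx : x ∈ occ (L ++ [T]) s t) : x ∈ occ L s t ∨ Equiv.swap T.a T.b x ∈ occ L s t := by
  rw [mem_occ] at hx
  rw [mem_occ, mem_occ]
  by_contra hcon
  push Not at hcon
  obtain ⟨h1, h2⟩ := hcon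
  obtain ⟨y, hy⟩ := hx
  rw [trans_snoc, trans_snoc, (h1 y).1, (h1 y).2, (h2 _).1, (h2 _).2] at hy
  simp at hy

theorem mat_snoc (T : LazyTransposition n) (L : List (LazyTransposition n)) (s t : Fin n) :
    mat (L ++ [T]) s t = (Matrix.of fun x y => (1 - T.p) * (mat L s t) x y
      + T.p * (mat L s t) (Equiv.swap T.a T.b x) (Equiv.swap T.a T.b y) :
        Matrix (Fin n) (Fin n) ℝ) := by
  ext x y
  simp only [mat, Matrix.of_apply]
  exact trans_snoc T L s t x y

theorem potential_step (T : LazyTransposition n) (L : List (LazyTransposition n))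
    {s t : Fin n} (hst : s ≠ t) :
    (mat (L ++ [T]) s t).rank + (occ (L ++ [T]) s t).card
      ≤ (mat L s t).rank + (occ L s t).card + 1 := by
  classical
  by_cases hboth : T.a ∈ occ L s t ∧ T.b ∈ occ L s t
  · obtain ⟨ha, hb⟩ := hboth
    have hsub : occ (L ++ [T]) s t ⊆ occ L s t := by
      intro x hx
      rcases occ_snoc T L s t x hx with h | h
      · exact h
      · by_cases hxa : x = T.a
        · rw [hxa]; exact ha
        · by_cases hxb : x = T.b
          · rw [hxb]; exact hb
          · rwa [Equiv.swap_apply_of_ne_of_ne hxa hxb] at h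
    have h1 := Finset.card_le_card hsub
    have h2 := rank_step (mat L s t) T.ne T.p
    rw [← mat_snoc T L s t] at h2
    omega
  · have hcard : (occ (L ++ [T]) s t).card ≤ (occ L s t).card + 1 := by
      by_cases ha : T.a ∈ occ L s t
      · have hb : T.b ∉ occ L s t := fun hb => hboth ⟨ha, hb⟩
        have hsub : occ (L ++ [T]) s t ⊆ insert T.b (occ L s t) := by
          intro x hx
          rw [Finset.mem_insert]
          rcases occ_snoc T L s t x hx with h | h
          · exact Or.inr h
          · by_cases hxb : x = T.b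
            · exact Or.inl hxb
            · by_cases hxa : x = T.a
              · rw [hxa, Equiv.swap_apply_left] at h
                exact absurd h hb
              · rw [Equiv.swap_apply_of_ne_of_ne hxa hxb] at h
                exact Or.inr h
        exact (Finset.card_le_card hsub).trans (Finset.card_insert_le _ _)
      · have hsub : occ (L ++ [T]) s t ⊆ insert T.a (occ L s t) := by
          intro x hx
          rw [Finset.mem_insert]
          rcases occ_snoc T L s t x hx with h | h
          · exact Or.inr h
          · by_cases hxa : x = T.a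
            · exact Or.inl hxa
            · by_cases hxb : x = T.b
              · rw [hxb, Equiv.swap_apply_right] at h
                exact absurd h ha
              · rw [Equiv.swap_apply_of_ne_of_ne hxa hxb] at h
                exact Or.inr h
        exact (Finset.card_le_card hsub).trans (Finset.card_insert_le _ _)
    have hab0 : trans L s t T.a T.b = 0 ∧ trans L s t T.b T.a = 0 := by
      by_contra hcon
      apply hboth
      rw [mem_occ, mem_occ]
      by_cases h1 : trans L s t T.a T.b = 0
      · have h2 : trans L s t T.b T.a ≠ 0 := fun h2 => hcon ⟨h1, h2⟩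
        exact ⟨⟨T.b, Or.inr h2⟩, ⟨T.a, Or.inl h2⟩⟩
      · exact ⟨⟨T.b, Or.inl h1⟩, ⟨T.a, Or.inr h1⟩⟩
    have hrank : (mat (L ++ [T]) s t).rank ≤ (mat L s t).rank := by
      rw [mat_snoc T L s t]
      refine rank_step_zero (mat L s t) T.ne T.p ?_
      simp only [mat, Matrix.of_apply]
      rw [hab0.1, hab0.2, trans_diag L hst, trans_diag L hst]
      ring
    omega

theorem potential_le {s t : Fin n} (hst : s ≠ t) (L : List (LazyTransposition n)) :
    (mat L s t).rank + (occ L s t).card ≤ 3 + L.length := by
  classical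
  induction L using List.reverseRecOn with
  | nil =>
    have h1 : (mat ([] : List (LazyTransposition n)) s t).rank ≤ 1 := by
      have : mat ([] : List (LazyTransposition n)) s t
          = vecMulVec (Pi.single s 1) (Pi.single t 1) := by
        ext x y
        simp only [mat, Matrix.of_apply, trans_nil, vecMulVec_apply, Pi.single_apply]
        by_cases hx : s = x
        · by_cases hy : t = y
          · simp [hx, hy]
          · simp [hx, hy, Ne.symm hy]
        · simp [hx, Ne.symm hx]
      rw [this]
      exact Matrix.rank_vecMulVec_le _ _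
    have h2 : (occ ([] : List (LazyTransposition n)) s t).card ≤ 2 := by
      have : occ ([] : List (LazyTransposition n)) s t ⊆ {s, t} := by
        intro x hx
        rw [mem_occ] at hx
        obtain ⟨y, hy⟩ := hx
        rw [trans_nil, trans_nil] at hy
        rw [Finset.mem_insert, Finset.mem_singleton]
        by_contra hcon
        push Not at hcon
        rcases hy with hy | hy
        · apply hy; rw [if_neg]; rintro ⟨h, _⟩; exact hcon.1 h.symm
        · apply hy; rw [if_neg]; rintro ⟨_, h⟩; exact hcon.2 h.symm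
      exact (Finset.card_le_card this).trans (Finset.card_le_two)
    simp only [List.length_nil]
    omega
  | append_singleton L T ih =>
    have := potential_step T L hst
    rw [List.length_append, List.length_singleton]
    omega

theorem rank_uniform (h : 2 ≤ n) (M : Matrix (Fin n) (Fin n) ℝ) {c : ℝ} (hc : c ≠ 0)
    (hd : ∀ x, M x x = 0) (ho : ∀ x y, x ≠ y → M x y = c) : n ≤ M.rank := by
  have hn1 : (n : ℝ) - 1 ≠ 0 := by
    have : (2 : ℝ) ≤ n := by exact_mod_cast h
    linarith
  let M' : Matrix (Fin n) (Fin n) ℝ :=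
    Matrix.of fun x y => c⁻¹ * (1 / ((n : ℝ) - 1) - if x = y then 1 else 0)
  have hM : ∀ x y, M x y = c * (1 - if x = y then 1 else 0) := by
    intro x y
    by_cases hxy : x = y
    · subst hxy; simp [hd]
    · simp [hxy, ho x y hxy]
  have hprod : M * M' = 1 := by
    ext x y
    rw [Matrix.mul_apply]
    have : ∀ z, M x z * M' z y = 1 / ((n : ℝ) - 1) - (if z = y then 1 else 0)
        - (if x = z then 1 / ((n : ℝ) - 1) else 0) + (if x = z then (if z = y then 1 else 0)
          else 0) := by
      intro z
      rw [hM]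
      simp only [M', Matrix.of_apply]
      by_cases h1 : x = z
      · simp [h1]
      · simp only [h1, if_false]
        field_simp
        ring
    rw [Finset.sum_congr rfl fun z _ => this z, Finset.sum_add_distrib,
      Finset.sum_sub_distrib, Finset.sum_sub_distrib]
    simp only [Finset.sum_const, Finset.card_univ, Fintype.card_fin, nsmul_eq_mul,
      Finset.sum_ite_eq', Finset.sum_ite_eq, Finset.mem_univ, if_true]
    rw [Matrix.one_apply]
    have : (n : ℝ) * (1 / ((n : ℝ) - 1)) - 1 - 1 / ((n : ℝ) - 1) = 0 := by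
      field_simp
      ring
    rw [this, zero_add]
  have h1 : (M * M').rank ≤ M.rank := Matrix.rank_mul_le_left _ _
  rw [hprod, Matrix.rank_one, Fintype.card_fin] at h1
  exact h1

/-- The lower bound. -/
theorem lower (h : 2 ≤ n) (L : List (LazyTransposition n)) (hL : IsShuffle h L) :
    2 * n - 3 ≤ L.length := by
  classical
  have hst : (⟨0, by omega⟩ : Fin n) ≠ ⟨1, by omega⟩ := by
    intro hc
    have := congrArg Fin.val hc
    simp at this
  have hn : (2 : ℝ) ≤ n := by exact_mod_cast h
  have hc : (1 : ℝ) / ((n : ℝ) * ((n : ℝ) - 1)) ≠ 0 := by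
    have : (0 : ℝ) < (n : ℝ) * ((n : ℝ) - 1) := by
      apply mul_pos <;> linarith
    positivity
  have hpot := potential_le hst L
  have hrank : n ≤ (mat L (⟨0, by omega⟩ : Fin n) ⟨1, by omega⟩).rank := by
    refine rank_uniform h _ hc ?_ ?_
    · intro x
      simp only [mat, Matrix.of_apply]
      exact trans_diag L hst x
    · intro x y hxy
      simp only [mat, Matrix.of_apply]
      exact hL x y hxy
  have hocc : (occ L (⟨0, by omega⟩ : Fin n) ⟨1, by omega⟩).card = n := by
    have : occ L (⟨0, by omega⟩ : Fin n) ⟨1, by omega⟩ = univ := by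
      ext x
      simp only [Finset.mem_univ, iff_true]
      rw [mem_occ]
      obtain ⟨y, hy⟩ : ∃ y : Fin n, x ≠ y := by
        by_cases hx : x = ⟨0, by omega⟩
        · exact ⟨⟨1, by omega⟩, by rw [hx]; exact hst⟩
        · exact ⟨_, hx⟩
      refine ⟨y, Or.inl ?_⟩
      have := hL x y hy
      rw [outcomeProb_eq] at this
      rw [this]
      exact hc
    rw [this, Finset.card_univ, Fintype.card_fin]
  omega

/-! ### The sweeping construction -/

/-- The list `L` shuffles the first `k` positions: a pair starting at the first two positions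
becomes uniform on the pairs of distinct positions below `k`, a single counter starting at the
first or the second position becomes uniform below `k`, positions from `k` on are not
touched. -/
structure Sweep (k : ℕ) (u v : Fin n) (L : List (LazyTransposition n)) : Prop where
  pair : ∀ x y : Fin n, trans L u v x y
    = if (x : ℕ) < k ∧ (y : ℕ) < k ∧ (x : ℕ) ≠ y then 1 / ((k : ℝ) * ((k : ℝ) - 1)) else 0
  ul : ∀ m : Fin n, k ≤ (m : ℕ) → ∀ x y : Fin n, trans L u m x y
    = if (x : ℕ) < k ∧ (y : ℕ) = m then 1 / (k : ℝ) else 0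
  vl : ∀ m : Fin n, k ≤ (m : ℕ) → ∀ x y : Fin n, trans L v m x y
    = if (x : ℕ) < k ∧ (y : ℕ) = m then 1 / (k : ℝ) else 0
  ur : ∀ m : Fin n, k ≤ (m : ℕ) → ∀ x y : Fin n, trans L m u x y
    = if (y : ℕ) < k ∧ (x : ℕ) = m then 1 / (k : ℝ) else 0
  vr : ∀ m : Fin n, k ≤ (m : ℕ) → ∀ x y : Fin n, trans L m v x y
    = if (y : ℕ) < k ∧ (x : ℕ) = m then 1 / (k : ℝ) else 0
  fix : ∀ m m' : Fin n, k ≤ (m : ℕ) → k ≤ (m' : ℕ) → ∀ x y : Fin n, trans L m m' x y
    = if (x : ℕ) = m ∧ (y : ℕ) = m' then 1 else 0

theorem sweep_base {u v : Fin n} (hu : (u : ℕ) = 0) (hv : (v : ℕ) = 1) :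
    ∃ L : List (LazyTransposition n), L.length = 1 ∧ Sweep 2 u v L := by
  have huv : u ≠ v := by intro h; rw [h] at hu; omega
  refine ⟨[⟨u, v, huv, 1 / 2, by norm_num, by norm_num⟩], rfl, ?_, ?_, ?_, ?_, ?_, ?_⟩
  · intro x y
    rw [trans_cons, trans_nil, trans_nil, Equiv.swap_apply_left, Equiv.swap_apply_right]
    simp only [Fin.ext_iff, hu, hv]
    split_ifs <;> first | (exfalso; omega) | norm_num
  · intro m hm x y
    have h1 : m ≠ u := by intro h; rw [h] at hm; omega
    have h2 : m ≠ v := by intro h; rw [h] at hm; omega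
    rw [trans_cons, trans_nil, trans_nil, Equiv.swap_apply_left,
      Equiv.swap_apply_of_ne_of_ne h1 h2]
    simp only [Fin.ext_iff, hu, hv]
    split_ifs <;> first | (exfalso; omega) | norm_num
  · intro m hm x y
    have h1 : m ≠ u := by intro h; rw [h] at hm; omega
    have h2 : m ≠ v := by intro h; rw [h] at hm; omega
    rw [trans_cons, trans_nil, trans_nil, Equiv.swap_apply_right,
      Equiv.swap_apply_of_ne_of_ne h1 h2]
    simp only [Fin.ext_iff, hu, hv]
    split_ifs <;> first | (exfalso; omega) | norm_num
  · intro m hm x y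
    have h1 : m ≠ u := by intro h; rw [h] at hm; omega
    have h2 : m ≠ v := by intro h; rw [h] at hm; omega
    rw [trans_cons, trans_nil, trans_nil, Equiv.swap_apply_left,
      Equiv.swap_apply_of_ne_of_ne h1 h2]
    simp only [Fin.ext_iff, hu, hv]
    split_ifs <;> first | (exfalso; omega) | norm_num
  · intro m hm x y
    have h1 : m ≠ u := by intro h; rw [h] at hm; omega
    have h2 : m ≠ v := by intro h; rw [h] at hm; omega
    rw [trans_cons, trans_nil, trans_nil, Equiv.swap_apply_right,
      Equiv.swap_apply_of_ne_of_ne h1 h2]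
    simp only [Fin.ext_iff, hu, hv]
    split_ifs <;> first | (exfalso; omega) | norm_num
  · intro m m' hm hm' x y
    have h1 : m ≠ u := by intro h; rw [h] at hm; omega
    have h2 : m ≠ v := by intro h; rw [h] at hm; omega
    have h3 : m' ≠ u := by intro h; rw [h] at hm'; omega
    have h4 : m' ≠ v := by intro h; rw [h] at hm'; omega
    rw [trans_cons, trans_nil, trans_nil, Equiv.swap_apply_of_ne_of_ne h1 h2,
      Equiv.swap_apply_of_ne_of_ne h3 h4]
    simp only [Fin.ext_iff]
    split_ifs <;> first | (exfalso; omega) | norm_num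

theorem sweep_step {u v : Fin n} (hu : (u : ℕ) = 0) (hv : (v : ℕ) = 1) {k : ℕ} (hk : 2 ≤ k)
    (hkn : k < n) {L : List (LazyTransposition n)} (hL : Sweep k u v L) :
    ∃ L' : List (LazyTransposition n), L'.length = L.length + 2 ∧ Sweep (k + 1) u v L' := by
  obtain ⟨w, hw⟩ : ∃ w : Fin n, (w : ℕ) = k := ⟨⟨k, hkn⟩, rfl⟩
  have huv : u ≠ v := by intro h; rw [h] at hu; omega
  have huw : u ≠ w := by intro h; rw [h] at hu; omega
  have hvw : v ≠ w := by intro h; rw [h] at hv; omega
  have hk0 : (2 : ℝ) ≤ k := by exact_mod_cast hk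
  have hkp : (0 : ℝ) < k := by linarith
  have hkm : (k : ℝ) - 1 ≠ 0 := by linarith
  have hkk : (k : ℝ) + 1 ≠ 0 := by linarith
  have hkk' : (k : ℝ) + 1 - 1 ≠ 0 := by linarith
  have a1 : Equiv.swap u w u = w := Equiv.swap_apply_left _ _
  have a2 : Equiv.swap u w v = v := Equiv.swap_apply_of_ne_of_ne huv.symm hvw
  have b1 : Equiv.swap v w v = w := Equiv.swap_apply_left _ _
  have b2 : Equiv.swap v w u = u := Equiv.swap_apply_of_ne_of_ne huv huw
  have b3 : Equiv.swap v w w = v := Equiv.swap_apply_right _ _
  have am : ∀ m : Fin n, k + 1 ≤ (m : ℕ) → Equiv.swap u w m = m := by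
    intro m hm
    refine Equiv.swap_apply_of_ne_of_ne ?_ ?_
    · intro h; rw [h] at hm; omega
    · intro h; rw [h] at hm; omega
  have bm : ∀ m : Fin n, k + 1 ≤ (m : ℕ) → Equiv.swap v w m = m := by
    intro m hm
    refine Equiv.swap_apply_of_ne_of_ne ?_ ?_
    · intro h; rw [h] at hm; omega
    · intro h; rw [h] at hm; omega
  have hwk : k ≤ (w : ℕ) := hw.ge
  have c1 : (((k + 1 : ℕ) : ℝ)) = (k : ℝ) + 1 := by push_cast; ring
  refine ⟨⟨u, w, huw, 1 / k, by positivity, by rw [div_le_one hkp]; linarith⟩
    :: ⟨v, w, hvw, 1 / (k + 1), by positivity, by rw [div_le_one (by linarith)]; linarith⟩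
    :: L, rfl, ?_, ?_, ?_, ?_, ?_, ?_⟩
  · intro x y
    rw [trans_cons, trans_cons, trans_cons]
    simp only [a1, a2, b1, b2, b3]
    rw [hL.pair, hL.ul w hwk, hL.vr w hwk, hL.vl w hwk, hw, c1]
    split_ifs <;> first | (exfalso; omega) | (field_simp; try ring)
  · intro m hm x y
    have hm' : k ≤ (m : ℕ) := by omega
    rw [trans_cons, trans_cons, trans_cons]
    simp only [a1, a2, b1, b2, b3, am m hm, bm m hm]
    rw [hL.ul m hm', hL.fix w m hwk hm', hL.vl m hm', hw, c1]
    split_ifs <;> first | (exfalso; omega) | (field_simp; try ring)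
  · intro m hm x y
    have hm' : k ≤ (m : ℕ) := by omega
    rw [trans_cons, trans_cons, trans_cons]
    simp only [a1, a2, b1, b2, b3, am m hm, bm m hm]
    rw [hL.fix w m hwk hm', hL.vl m hm', hw, c1]
    split_ifs <;> first | (exfalso; omega) | (field_simp; try ring)
  · intro m hm x y
    have hm' : k ≤ (m : ℕ) := by omega
    rw [trans_cons, trans_cons, trans_cons]
    simp only [a1, a2, b1, b2, b3, am m hm, bm m hm]
    rw [hL.ur m hm', hL.fix m w hm' hwk, hL.vr m hm', hw, c1]
    split_ifs <;> first | (exfalso; omega) | (field_simp; try ring)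
  · intro m hm x y
    have hm' : k ≤ (m : ℕ) := by omega
    rw [trans_cons, trans_cons, trans_cons]
    simp only [a1, a2, b1, b2, b3, am m hm, bm m hm]
    rw [hL.fix m w hm' hwk, hL.vr m hm', hw, c1]
    split_ifs <;> first | (exfalso; omega) | (field_simp; try ring)
  · intro m m' hm hm' x y
    rw [trans_cons, trans_cons, trans_cons]
    simp only [am m hm, bm m hm, am m' hm', bm m' hm']
    rw [hL.fix m m' (by omega) (by omega)]
    ring

theorem sweep_exists {u v : Fin n} (hu : (u : ℕ) = 0) (hv : (v : ℕ) = 1) :
    ∀ j : ℕ, j + 2 ≤ n →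
      ∃ L : List (LazyTransposition n), L.length = 2 * j + 1 ∧ Sweep (j + 2) u v L := by
  intro j
  induction j with
  | zero =>
    intro _
    exact sweep_base hu hv
  | succ j ih =>
    intro hj
    obtain ⟨L, hlen, hL⟩ := ih (by omega)
    obtain ⟨L', hlen', hL'⟩ := sweep_step hu hv (by omega : 2 ≤ j + 2) (by omega) hL
    exact ⟨L', by omega, hL'⟩

/-- The upper bound. -/
theorem upper (h : 2 ≤ n) :
    ∃ L : List (LazyTransposition n), L.length = 2 * n - 3 ∧ IsShuffle h L := by
  obtain ⟨L, hlen, hL⟩ := sweep_exists (n := n) (u := ⟨0, by omega⟩) (v := ⟨1, by omega⟩) rfl rfl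
    (n - 2) (by omega)
  refine ⟨L, by omega, ?_⟩
  intro x y hxy
  have h2 : n - 2 + 2 = n := by omega
  rw [h2] at hL
  rw [outcomeProb_eq, hL.pair, if_pos]
  exact ⟨x.isLt, y.isLt, fun hc => hxy (Fin.ext hc)⟩

/-- **`U_2(n) = 2n - 3`.**  For every `n ≥ 2` the least length of a `(2, n)`-shuffle is
`2 n - 3`. -/
theorem result (n : ℕ) (h : 2 ≤ n) :
    IsLeast {ℓ : ℕ | ∃ L : List (LazyTransposition n), L.length = ℓ ∧ IsShuffle h L}
      (2 * n - 3) := by
  refine ⟨upper h, ?_⟩
  rintro ℓ ⟨L, rfl, hL⟩
  exact lower h L hL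

end Pool.Agent.Results.MP_3359ff_co.TwoCounters
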